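import Mathlib

set_option autoImplicit false

namespace Pool.Agent.Results.MP_cf22da_co.NoMorphism

/-- the morphism `h` on the letters `0, 1, 3, 4` -/
def h : ℕ → List ℕ
  | 0 => [0, 3]
  | 1 => [4, 3]
  | 3 => [1]
  | 4 => [0, 1]
  | _ => []

/-- `hpow k u = h^k(u)` -/
def hpow (k : ℕ) (u : List ℕ) : List ℕ := (fun l : List ℕ => l.flatMap h)^[k] u

/-- `x = g(h^∞(0))` and this word is infinite: every `g(h^k(0))` is a beginning of `x`, and the
lengths of these words are unbounded -/
def IsImage (g : ℕ → List Bool) (x : ℕ → Bool) : Prop :=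
  (∀ k i, ∀ hi : i < ((hpow k [0]).flatMap g).length, x i = ((hpow k [0]).flatMap g)[i]) ∧
  ∀ n, ∃ k, n < ((hpow k [0]).flatMap g).length

/-- number of occurrences of the letter `b` in the factor of `x` of length `m` starting at `i` -/
def occ (x : ℕ → Bool) (b : Bool) (i m : ℕ) : ℕ :=
  ((Finset.range m).filter fun j => x (i + j) = b).card

theorem hpow_succ (k : ℕ) (u : List ℕ) : hpow (k + 1) u = (hpow k u).flatMap h :=
  Function.iterate_succ_apply' _ _ _

theorem hpow_append (k : ℕ) (u v : List ℕ) : hpow k (u ++ v) = hpow k u ++ hpow k v := by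
  induction k with
  | zero => rfl
  | succ k ih => rw [hpow_succ, hpow_succ, hpow_succ, ih, List.flatMap_append]

theorem hpow4 (k : ℕ) : hpow (k + 4) [0] = hpow k [0, 3, 1, 4, 3, 0] ++ hpow k [1] ++ hpow k [1] := by
  rw [← hpow_append, ← hpow_append]
  unfold hpow
  rw [Function.iterate_add_apply]
  rfl

def Ok (u : List ℕ) : Prop := ∀ a ∈ u, a = 0 ∨ a = 1 ∨ a = 3 ∨ a = 4

theorem ok_h (u : List ℕ) : Ok (u.flatMap h) := by
  intro a ha
  obtain ⟨b, -, hb⟩ := List.mem_flatMap.mp ha
  unfold h at hb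
  split at hb <;> simp at hb <;> omega

theorem ok_pow (k : ℕ) {u : List ℕ} (hu : Ok u) : Ok (hpow k u) := by
  cases k with
  | zero => exact hu
  | succ k => rw [hpow_succ]; exact ok_h _

theorem sum_ok (f : ℕ → ℕ) {u : List ℕ} (hu : Ok u) : (u.map f).sum =
    u.count 0 * f 0 + u.count 1 * f 1 + u.count 3 * f 3 + u.count 4 * f 4 := by
  induction u with
  | nil => simp
  | cons a u ih =>
    have h1 := ih fun b hb => hu b (List.mem_cons_of_mem _ hb)
    rw [List.map_cons, List.sum_cons, h1]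
    rcases hu a List.mem_cons_self with rfl | rfl | rfl | rfl <;> simp <;> ring

theorem count_h {u : List ℕ} (hu : Ok u) :
    (u.flatMap h).count 0 = u.count 0 + u.count 4 ∧ (u.flatMap h).count 1 = u.count 3 + u.count 4 ∧
    (u.flatMap h).count 3 = u.count 0 + u.count 1 ∧ (u.flatMap h).count 4 = u.count 1 := by
  simp only [List.count_flatMap]
  refine ⟨?_, ?_, ?_, ?_⟩ <;> rw [sum_ok _ hu] <;> simp [h]

def c (k a : ℕ) : ℕ := (hpow k [1]).count a

theorem ok1 : Ok [1] := by intro a ha; simp at ha; omega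

theorem c_succ (k : ℕ) : c (k + 1) 0 = c k 0 + c k 4 ∧ c (k + 1) 1 = c k 3 + c k 4 ∧
    c (k + 1) 3 = c k 0 + c k 1 ∧ c (k + 1) 4 = c k 1 := by
  unfold c
  rw [hpow_succ]
  exact count_h (ok_pow k ok1)

theorem c_big (s : ℕ) : ∀ k, 5 + 2 * s ≤ k →
    s < c k 0 ∧ s < c k 1 ∧ s < c k 3 ∧ s < c k 4 := by
  induction s with
  | zero =>
    intro k hk
    induction k, hk using Nat.le_induction with
    | base => decide
    | succ k _ ih => have := c_succ k; omega
  | succ s ih =>
    intro k hk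
    obtain ⟨j, rfl⟩ : ∃ j, k = j + 2 := ⟨k - 2, by omega⟩
    have := ih j (by omega)
    have := c_succ j
    have := c_succ (j + 1)
    simp only [Nat.add_assoc, Nat.reduceAdd] at *
    omega

def f (v : ZMod 2 × ZMod 2 × ZMod 2 × ZMod 2) : ZMod 2 × ZMod 2 × ZMod 2 × ZMod 2 :=
  (v.1 + v.2.2.2, v.2.2.1 + v.2.2.2, v.1 + v.2.1, v.2.1)

theorem c_par (k : ℕ) :
    (((c k 0 : ℕ) : ZMod 2), ((c k 1 : ℕ) : ZMod 2), ((c k 3 : ℕ) : ZMod 2), ((c k 4 : ℕ) : ZMod 2)) =
      f^[k] (0, 1, 0, 0) := by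
  induction k with
  | zero => rfl
  | succ k ih =>
    obtain ⟨a, b, d, e⟩ := c_succ k
    rw [Function.iterate_succ_apply', ← ih, a, b, d, e]
    simp [f]

theorem f_per (t j : ℕ) : f^[j + 15 * t] (0, 1, 0, 0) = f^[j] (0, 1, 0, 0) := by
  rw [Function.iterate_add_apply, Function.iterate_mul]
  congr 1
  exact Function.iterate_fixed (by decide) t

theorem f_hit : ∀ l0 l1 l3 l4 s0 s1 s3 s4 : ZMod 2, ∃ j < 15,
    (f^[j] (0, 1, 0, 0)).1 * l0 + (f^[j] (0, 1, 0, 0)).2.1 * l1 + (f^[j] (0, 1, 0, 0)).2.2.1 * l3 +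
      (f^[j] (0, 1, 0, 0)).2.2.2 * l4 = 0 ∧
    (f^[j] (0, 1, 0, 0)).1 * s0 + (f^[j] (0, 1, 0, 0)).2.1 * s1 + (f^[j] (0, 1, 0, 0)).2.2.1 * s3 +
      (f^[j] (0, 1, 0, 0)).2.2.2 * s4 = 0 := by
  decide +kernel

/-- long images of `h^k(1)` with even length and an even number of ones -/
theorem even_U (g : ℕ → List Bool) (hg : ∃ a, (a = 0 ∨ a = 1 ∨ a = 3 ∨ a = 4) ∧ 0 < (g a).length)
    (p : ℕ) : ∃ k m t, p < m ∧ ((hpow k [1]).flatMap g).length = 2 * m ∧
      ((hpow k [1]).flatMap g).count true = 2 * t := by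
  obtain ⟨j, -, h1, h2⟩ := f_hit (g 0).length (g 1).length (g 3).length (g 4).length
    ((g 0).count true) ((g 1).count true) ((g 3).count true) ((g 4).count true)
  rw [← f_per (p + 1), ← c_par] at h1 h2
  have e1 := sum_ok (fun a => (g a).length) (ok_pow (j + 15 * (p + 1)) ok1)
  have e2 := sum_ok (fun a => (g a).count true) (ok_pow (j + 15 * (p + 1)) ok1)
  have b := c_big (2 * p + 1) (j + 15 * (p + 1)) (by omega)
  unfold c at h1 h2 b
  have d1 : 2 ∣ ((hpow (j + 15 * (p + 1)) [1]).flatMap g).length := by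
    rw [← ZMod.natCast_eq_zero_iff, List.length_flatMap, e1]
    push_cast
    exact h1
  have d2 : 2 ∣ ((hpow (j + 15 * (p + 1)) [1]).flatMap g).count true := by
    rw [← ZMod.natCast_eq_zero_iff, List.count_flatMap]
    change (((List.map (fun a => (g a).count true) _).sum : ℕ) : ZMod 2) = 0
    rw [e2]
    push_cast
    exact h2
  obtain ⟨m, hm⟩ := d1
  obtain ⟨t, ht⟩ := d2
  refine ⟨_, m, t, ?_, hm, ht⟩
  rw [List.length_flatMap, e1] at hm
  obtain ⟨a, ha, hp⟩ := hg
  rcases ha with rfl | rfl | rfl | rfl <;> nlinarith [b.1, b.2.1, b.2.2.1, b.2.2.2]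

def S (x : ℕ → Bool) (i m : ℕ) : ℤ := ∑ j ∈ Finset.range m, ((x (i + j)).toNat : ℤ)

theorem S_shift (x : ℕ → Bool) (i m : ℕ) :
    S x (i + 1) m = S x i m + (x (i + m)).toNat - (x i).toNat := by
  have a := Finset.sum_range_succ (fun j => ((x (i + j)).toNat : ℤ)) m
  have b := Finset.sum_range_succ' (fun j => ((x (i + j)).toNat : ℤ)) m
  unfold S
  simp only [Nat.add_zero] at b
  rw [Finset.sum_congr rfl fun j _ => by rw [show i + 1 + j = i + (j + 1) by ring]]
  linarith

theorem occ_S (x : ℕ → Bool) (i m : ℕ) :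
    (occ x true i m : ℤ) = S x i m ∧ (occ x false i m : ℤ) = m - S x i m := by
  unfold occ S
  induction m with
  | zero => simp
  | succ m ih =>
    rw [Finset.range_add_one, Finset.filter_insert, Finset.filter_insert,
      Finset.sum_insert Finset.notMem_range_self]
    have n1 : ∀ b, m ∉ (Finset.range m).filter fun j => x (i + j) = b := by simp
    cases hx : x (i + m)
    · simp [Finset.card_insert_of_notMem (n1 _), ih.1, ih.2]
      ring
    · simp [Finset.card_insert_of_notMem (n1 _), ih.1, ih.2]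
      constructor <;> ring

theorem cube (x : ℕ → Bool) (a m : ℕ) (t : ℤ) (hp : ∀ i < 2 * m, x (a + 2 * m + i) = x (a + i))
    (ht : S x a m + S x (a + m) m = 2 * t) :
    ∃ i, S x i m = S x (i + m) m ∧ S x (i + m) m = S x (i + 2 * m) m := by
  have h1 : ∀ p ≤ m, S x (a + p + 2 * m) m = S x (a + p) m := by
    intro p hp'
    refine Finset.sum_congr rfl fun j hj => ?_
    have := Finset.mem_range.mp hj
    rw [show a + p + 2 * m + j = a + 2 * m + (p + j) by ring, hp _ (by omega), Nat.add_assoc]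
  have h2 : ∀ p ≤ m, S x (a + p) m + S x (a + p + m) m = 2 * t := by
    intro p
    induction p with
    | zero => intro _; exact ht
    | succ p ih =>
      intro hp'
      have := ih (by omega)
      have e := hp p (by omega)
      rw [show a + (p + 1) + m = a + p + m + 1 by ring, ← Nat.add_assoc, S_shift, S_shift,
        show a + p + m + m = a + 2 * m + p by ring, e]
      linarith
  by_contra hn
  push Not at hn
  have h3 : ∀ p ≤ m, S x (a + p) m ≠ t := by
    intro p hp' e
    have := h2 p hp'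
    exact hn (a + p) (by omega) (by rw [h1 p hp']; omega)
  have h4 : ∀ p ≤ m, (S x (a + p) m < t ↔ S x a m < t) := by
    intro p
    induction p with
    | zero => intro _; rfl
    | succ p ih =>
      intro hp'
      have e1 := ih (by omega)
      have e2 := h3 p (by omega)
      have e3 := h3 (p + 1) hp'
      rw [← Nat.add_assoc, S_shift] at e3 ⊢
      have := Bool.toNat_le (x (a + p + m))
      have := Bool.toNat_le (x (a + p))
      omega
  have := h4 m le_rfl
  have := h3 0 (by omega)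
  rw [Nat.add_zero] at this
  omega

theorem count_S (U : List Bool) : (U.count true : ℤ) =
    ∑ j ∈ Finset.range U.length, ((U.getD j false).toNat : ℤ) := by
  induction U with
  | nil => simp
  | cons b U ih =>
    rw [List.length_cons, Finset.sum_range_succ']
    simp only [List.getD_cons_succ, List.getD_cons_zero, ← ih]
    cases b <;> simp

theorem result (g : ℕ → List Bool) (x : ℕ → Bool) (hx : IsImage g x) (p : ℕ) :
    ∃ i m, 0 < m ∧ p ≤ m ∧
      ∀ b, occ x b i m = occ x b (i + m) m ∧ occ x b (i + m) m = occ x b (i + 2 * m) m := by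
  have hg : ∃ a, (a = 0 ∨ a = 1 ∨ a = 3 ∨ a = 4) ∧ 0 < (g a).length := by
    obtain ⟨k, hk⟩ := hx.2 0
    obtain ⟨b, hb⟩ := List.exists_mem_of_length_pos hk
    obtain ⟨a, ha, hb⟩ := List.mem_flatMap.mp hb
    exact ⟨a, ok_pow k (by intro a ha; simp at ha; omega) a ha, List.length_pos_of_mem hb⟩
  obtain ⟨k, m, t, hm, h1, h2⟩ := even_U g hg p
  obtain ⟨U, hU⟩ : ∃ U, (hpow k [1]).flatMap g = U := ⟨_, rfl⟩
  obtain ⟨A, hA⟩ : ∃ A, (hpow k [0, 3, 1, 4, 3, 0]).flatMap g = A := ⟨_, rfl⟩
  have h4 : (hpow (k + 4) [0]).flatMap g = A ++ U ++ U := by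
    rw [hpow4, List.flatMap_append, List.flatMap_append, hU, hA]
  have h3 : ∀ i, ∀ hi : i < (A ++ U ++ U).length, x i = (A ++ U ++ U)[i] := by
    rw [← h4]; exact hx.1 (k + 4)
  rw [hU] at h1 h2
  have e1 : ∀ i < 2 * m, x (A.length + i) = U.getD i false := by
    intro i hi
    rw [h3 (A.length + i) (by simp; omega), List.getElem_append_left (by simp; omega),
      List.getElem_append_right (by omega), List.getD_eq_getElem _ _ (by omega)]
    simp
  have e2 : ∀ i < 2 * m, x (A.length + 2 * m + i) = U.getD i false := by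
    intro i hi
    rw [h3 (A.length + 2 * m + i) (by simp; omega), List.getElem_append_right (by simp; omega),
      List.getD_eq_getElem _ _ (by omega)]
    simp [h1]
  have e3 : S x A.length m + S x (A.length + m) m = 2 * (t : ℤ) := by
    have := count_S U
    rw [h2, h1, two_mul m, Finset.sum_range_add] at this
    push_cast at this
    rw [this]
    unfold S
    congr 1
    · exact Finset.sum_congr rfl fun j hj => by
        rw [e1 j (by have := Finset.mem_range.mp hj; omega)]
    · exact Finset.sum_congr rfl fun j hj => by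
        rw [Nat.add_assoc, e1 (m + j) (by have := Finset.mem_range.mp hj; omega)]
  obtain ⟨i, k1, k2⟩ := cube x A.length m t (fun i hi => by rw [e1 i hi, e2 i hi]) e3
  refine ⟨i, m, by omega, hm.le, fun b => ?_⟩
  have := occ_S x i m
  have := occ_S x (i + m) m
  have := occ_S x (i + 2 * m) m
  cases b <;> omega

end Pool.Agent.Results.MP_cf22da_co.NoMorphism
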